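import Mathlib

/-!
Definitions for the partial results on the log-rank conjecture (MP_e5d384_lc), helper630.
-/

set_option autoImplicit false

namespace Pool.Agent.H630R2.LR

open Finset

/-! ### Protocols -/

/-- `Proto F c`: there is a deterministic two-party protocol for `F` in which exactly `c` bits are
exchanged.  `t` is the transcript so far, `owner t` says whose turn it is (`true` = Alice), `a`/`b` give the
next bit as a function of the transcript and of the own input; `out` reads the answer off the final
transcript.  (Same model as the frozen statement S10685.) -/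
def Proto {X Y : Type*} (F : X → Y → Bool) (c : ℕ) : Prop :=
  ∃ (owner : List Bool → Bool) (a : List Bool → X → Bool) (b : List Bool → Y → Bool)
    (out : List Bool → Bool), ∀ x y,
      out (Nat.iterate (fun t : List Bool => t ++ [if owner t then a t x else b t y]) c []) = F x y

/-- The real communication matrix. -/
noncomputable def comm {X Y : Type*} (F : X → Y → Bool) : Matrix X Y ℝ :=
  Matrix.of (fun x y => if F x y then (1 : ℝ) else 0)

/-! ### Mixed differences and decision trees on a finite product -/

section
variable {I : Type*} [DecidableEq I] {Ω : I → Type*}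

/-- The mixed difference of `g` over the coordinate set `S`, from `u` to `v`:
`∑_{T ⊆ S} (-1)^{|S \ T|} g(v on T, u elsewhere)`. -/
def diff (g : (∀ i, Ω i) → Bool) (S : Finset I) (u v : ∀ i, Ω i) : ℤ :=
  ∑ T ∈ S.powerset, (-1 : ℤ) ^ (S \ T).card * (if g (T.piecewise v u) then 1 else 0)

/-- All mixed differences of order `> k` vanish. -/
def Vanish (g : (∀ i, Ω i) → Bool) (k : ℕ) : Prop :=
  ∀ (S : Finset I) (u v : ∀ i, Ω i), k < S.card → diff g S u v = 0

/-- `DT g n`: `g` is computed by a decision tree of depth `≤ n`, each query reading one coordinate. -/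
inductive DT : ((∀ i, Ω i) → Bool) → ℕ → Prop
  | const (v : Bool) (n : ℕ) : DT (fun _ => v) n
  | query (g : (∀ i, Ω i) → Bool) (n : ℕ) (i : I)
      (h : ∀ a : Ω i, DT (fun x => g (Function.update x i a)) n) : DT g (n + 1)

end

/-! ### Fourier coefficients -/

section
variable {G : Type*} [AddCommGroup G] [Fintype G]

/-- The (unnormalised) Fourier coefficient `∑ f(x) χ(x)` of the `0/1`-valued function `f`. -/
noncomputable def fc (f : G → Bool) (χ : AddChar G ℂ) : ℂ :=
  ∑ x, (if f x then 1 else 0) * χ x

open Classical in
/-- The Fourier support of `f`. -/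
noncomputable def spec (f : G → Bool) : Finset (AddChar G ℂ) :=
  univ.filter fun χ => fc f χ ≠ 0

end

/-! ### Shift-invariant spaces of sequences -/

/-- The shift on sequences. -/
def shift : (ℕ → ℝ) →ₗ[ℝ] (ℕ → ℝ) where
  toFun h := fun t => h (t + 1)
  map_add' _ _ := rfl
  map_smul' _ _ := rfl

/-- `Rec h D`: the sequence `h` lies in a shift-invariant space of sequences of dimension `≤ D`. -/
def Rec (h : ℕ → ℝ) (D : ℕ) : Prop :=
  ∃ V : Submodule ℝ (ℕ → ℝ), FiniteDimensional ℝ V ∧ Module.finrank ℝ V ≤ D ∧
    (∀ g ∈ V, shift g ∈ V) ∧ h ∈ V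

end Pool.Agent.H630R2.LR
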