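import Pool.Agent.H630R2.LR.Hankel

set_option autoImplicit false

namespace Pool.Agent.H630R2.LR

open Finset

theorem logb_nonneg (n : ℕ) : 0 ≤ Real.logb 2 (n : ℝ) := by
  rcases Nat.eq_zero_or_pos n with rfl | h
  · simp
  · exact Real.logb_nonneg (by norm_num) (by exact_mod_cast h)

theorem clog_le (n : ℕ) : (Nat.clog 2 n : ℝ) ≤ Real.logb 2 n + 1 := by
  rcases Nat.lt_or_ge 1 n with h | h
  · have h1 : 0 < Nat.clog 2 n := Nat.clog_pos (by norm_num) h
    have h2 := Nat.pow_pred_clog_lt_self (b := 2) (by norm_num) h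
    have h3 : ((2 : ℝ) ^ (Nat.clog 2 n - 1 : ℕ)) ≤ n := by
      have : (2 : ℕ) ^ (Nat.clog 2 n - 1) ≤ n := by
        simpa [Nat.pred_eq_sub_one] using h2.le
      exact_mod_cast this
    have h4 : ((Nat.clog 2 n - 1 : ℕ) : ℝ) ≤ Real.logb 2 n := by
      rw [Real.le_logb_iff_rpow_le (by norm_num) (by positivity), Real.rpow_natCast]
      exact h3
    have h5 : ((Nat.clog 2 n - 1 : ℕ) : ℝ) = (Nat.clog 2 n : ℝ) - 1 := by
      push_cast [Nat.cast_sub h1]; ring
    linarith
  · rw [Nat.clog_of_right_le_one h]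
    have := logb_nonneg n
    simp only [Nat.cast_zero]
    linarith

theorem log_le (n : ℕ) : (Nat.log 2 n : ℝ) ≤ Real.logb 2 n := by
  rcases Nat.eq_zero_or_pos n with rfl | h
  · simp
  · rw [Real.le_logb_iff_rpow_le (by norm_num) (by positivity), Real.rpow_natCast]
    exact_mod_cast Nat.pow_log_le_self 2 h.ne'

theorem ccost_le (d r : ℕ) : (ccost d r : ℝ) ≤ 4 * d * (Real.logb 2 r + 1) ^ 5 := by
  have hl := logb_nonneg r
  rcases Nat.eq_zero_or_pos r with rfl | hr
  · simp [ccost]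
  have h1 : (Nat.clog 2 (2 * r) : ℝ) ≤ 2 * (Real.logb 2 r + 1) := by
    have h2 := clog_le (2 * r)
    have h3 : Real.logb 2 ((2 * r : ℕ) : ℝ) = 1 + Real.logb 2 r := by
      push_cast
      rw [Real.logb_mul (by norm_num) (by positivity), Real.logb_self_eq_one (by norm_num)]
    rw [h3] at h2
    linarith
  have h4 : ((∑ j ∈ range (Nat.log 2 r + 2), j ^ 3 : ℕ) : ℝ) ≤ (Real.logb 2 r + 1) ^ 4 := by
    have h5 : (∑ j ∈ range (Nat.log 2 r + 2), j ^ 3 : ℕ) ≤ (Nat.log 2 r + 1) ^ 4 := by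
      rw [show Nat.log 2 r + 2 = (Nat.log 2 r + 1) + 1 by ring, Finset.sum_range_succ']
      simp only [ne_eq, OfNat.ofNat_ne_zero, not_false_eq_true, zero_pow, add_zero]
      calc ∑ k ∈ range (Nat.log 2 r + 1), (k + 1) ^ 3
          ≤ ∑ k ∈ range (Nat.log 2 r + 1), (Nat.log 2 r + 1) ^ 3 := by
            refine Finset.sum_le_sum fun k hk => ?_
            have := Finset.mem_range.1 hk
            exact Nat.pow_le_pow_left (by omega) 3
        _ = (Nat.log 2 r + 1) ^ 4 := by
            rw [Finset.sum_const, Finset.card_range, smul_eq_mul]; ring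
    have h6 : ((∑ j ∈ range (Nat.log 2 r + 2), j ^ 3 : ℕ) : ℝ) ≤ ((Nat.log 2 r : ℝ) + 1) ^ 4 := by
      exact_mod_cast h5
    refine h6.trans ?_
    have := log_le r
    gcongr
  unfold ccost
  rw [Nat.cast_mul]
  push_cast at h4 ⊢
  calc 2 * ((d : ℝ) * (Nat.clog 2 (2 * r) : ℝ)) * ∑ j ∈ range (Nat.log 2 r + 2), (j : ℝ) ^ 3
      ≤ 2 * (d * (2 * (Real.logb 2 r + 1))) * (Real.logb 2 r + 1) ^ 4 := by
        gcongr
    _ = 4 * d * (Real.logb 2 r + 1) ^ 5 := by ring

/-- final form, abelian symmetry -/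
theorem final_orbit {G : Type} [AddCommGroup G] [Fintype G] (d : ℕ) (gens : Fin d → G)
    (hgens : AddSubgroup.closure (Set.range gens) = ⊤)
    {X Y : Type} [Fintype X] [Fintype Y] [AddAction G X] [AddAction G Y] (F : X → Y → Bool)
    (hF : ∀ (g : G) (x : X) (y : Y), F (g +ᵥ x) (g +ᵥ y) = F x y) (t : ℕ)
    (hX : Nat.card (AddAction.orbitRel.Quotient G X) ≤ t)
    (hY : Nat.card (AddAction.orbitRel.Quotient G Y) ≤ t) :
    ∃ c : ℕ, Proto F c ∧
      (c : ℝ) ≤ 4 * (d * (Real.logb 2 ((comm F).rank : ℝ) + 1) ^ 5 + Real.logb 2 t + 1) := by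
  have hg2 : ∀ x : G, ∃ a : Fin d → ℤ, x = ∑ i, a i • gens i := by
    intro x
    have hx : x ∈ Submodule.span ℤ (Set.range gens) := by
      have : x ∈ (Submodule.span ℤ (Set.range gens)).toAddSubgroup := by
        rw [Submodule.span_int_eq_addSubgroupClosure, hgens]
        exact AddSubgroup.mem_top x
      exact this
    rw [Submodule.mem_span_range_iff_exists_fun] at hx
    obtain ⟨a, ha⟩ := hx
    exact ⟨a, ha.symm⟩
  refine ⟨_, orbit_version d gens hg2 F hF t hX hY, ?_⟩
  have h1 := ccost_le d (comm F).rank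
  have h2 := clog_le t
  have h3 := logb_nonneg t
  push_cast
  linarith

/-- final form, Hankel and Toeplitz -/
theorem final_hankel {m n : ℕ} (F : Fin m → Fin n → Bool)
    (hF : (∃ f : ℤ → Bool, ∀ i j, F i j = f ((i : ℤ) + (j : ℤ))) ∨
      (∃ f : ℤ → Bool, ∀ i j, F i j = f ((i : ℤ) - (j : ℤ)))) :
    ∃ c : ℕ, Proto F c ∧
      (c : ℝ) ≤ 11 * (Real.logb 2 ((comm F).rank : ℝ) + 1) ^ 5 := by
  have hH : Proto F (ccost 1 (comm F).rank + 1 + Nat.clog 2 (((comm F).rank + 1) ^ 2) +
      Nat.clog 2 (((comm F).rank + 1) ^ 2)) := by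
    rcases hF with ⟨f, hf⟩ | ⟨f, hf⟩
    · have e : F = fun (i : Fin m) (j : Fin n) => (fun t : ℕ => f t) (i + j) := by
        funext i j
        rw [hf i j]
        push_cast
        rfl
      have h := hankel_core (fun t : ℕ => f t) m n (comm F).rank (by rw [← e])
      rw [← e] at h
      exact h
    · -- reverse the columns
      have e : (fun (i : Fin m) (j : Fin n) => F i j.rev) =
          fun (i : Fin m) (j : Fin n) => (fun t : ℕ => f ((t : ℤ) - (n - 1 : ℤ))) (i + j) := by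
        funext i j
        rw [hf i j.rev]
        congr 1
        rw [Fin.val_rev]
        have := j.2
        push_cast [Nat.cast_sub (show (j : ℕ) + 1 ≤ n by omega)]
        ring
      have h := hankel_core (fun t : ℕ => f ((t : ℤ) - (n - 1 : ℤ))) m n (comm F).rank (by
        rw [← e]
        exact Matrix.rank_submatrix_le (comm F) id Fin.rev)
      rw [← e] at h
      have h2 := h.comap (id : Fin m → Fin m) (Fin.rev : Fin n → Fin n)
      simpa using h2
  refine ⟨_, hH, ?_⟩
  set r := (comm F).rank with hr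
  have hl := logb_nonneg r
  have h1 := ccost_le 1 r
  have h2 : (Nat.clog 2 ((r + 1) ^ 2) : ℝ) ≤ 2 * (Real.logb 2 r + 1) + 1 := by
    refine (clog_le _).trans ?_
    have h3 : Real.logb 2 (((r + 1) ^ 2 : ℕ) : ℝ) = 2 * Real.logb 2 ((r : ℝ) + 1) := by
      push_cast
      rw [Real.logb_pow]
      norm_num
    rw [h3]
    have h4 : Real.logb 2 ((r : ℝ) + 1) ≤ Real.logb 2 r + 1 := by
      rcases Nat.eq_zero_or_pos r with h0 | h0
      · rw [h0]; simp
      · have h5 : Real.logb 2 r + 1 = Real.logb 2 (r * 2) := by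
          rw [Real.logb_mul (by positivity) (by norm_num), Real.logb_self_eq_one (by norm_num)]
        rw [h5]
        refine Real.logb_le_logb_of_le (by norm_num) (by positivity) ?_
        have : (1 : ℝ) ≤ r := by exact_mod_cast h0
        linarith
    linarith
  have h5 : (Real.logb 2 r + 1) ≤ (Real.logb 2 r + 1) ^ 5 := by
    have : (1 : ℝ) ≤ Real.logb 2 r + 1 := by linarith
    calc (Real.logb 2 r + 1) = (Real.logb 2 r + 1) ^ 1 := (pow_one _).symm
      _ ≤ _ := pow_le_pow_right₀ this (by norm_num)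
  push_cast at h1 h2 ⊢
  by_cases h0 : r = 0
  · rw [h0]
    simp [ccost]
  · linarith

end Pool.Agent.H630R2.LR
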