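import Pool.Agent.H630R2.LR.Mods

set_option autoImplicit false

namespace Pool.Agent.H630R2.LR

open Finset

/-- the cost of the core protocol -/
def ccost (d s : ℕ) : ℕ := 2 * (d * Nat.clog 2 (2 * s)) * ∑ j ∈ range (Nat.log 2 s + 2), j ^ 3

theorem core {G : Type} [AddCommGroup G] [Fintype G] (f : G → Bool) (d : ℕ) (gens : Fin d → G)
    (hgens : ∀ x : G, ∃ a : Fin d → ℤ, x = ∑ i, a i • gens i) (s : ℕ)
    (hs : (comm (fun x y : G => f (x + y))).rank ≤ s) :
    Proto (fun x y : G => f (x + y)) (ccost d s) := by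
  classical
  have hS : (spec f).card ≤ s := (card_spec_le_rank f).trans hs
  have hpos : ∀ χ : AddChar G ℂ, 0 < orderOf χ := fun χ => orderOf_pos χ
  have htot : ∀ χ ∈ spec f, (orderOf χ).totient ≤ s := fun χ hχ =>
    (totient_le f χ (by simpa [spec] using hχ)).trans hS
  obtain ⟨I, _, _, Ω, _, _, q, g, hcard, hvan, hf⟩ := crt_model f d gens hgens (2 * s)
    (Nat.log 2 s + 1)
    (fun χ hχ => card_primeFactors_le _ _ (hpos χ) (htot χ hχ))
    (fun χ hχ p hp => primePow_le _ _ _ (hpos χ) (htot χ hχ) hp)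
  have hdt := dt_of_vanish g _ hvan
  have hw : ∀ i, Fintype.card (Ω i) ≤ 2 ^ (d * Nat.clog 2 (2 * s)) := fun i => by
    refine (hcard i).trans ?_
    rw [mul_comm d, pow_mul]
    exact Nat.pow_le_pow_left (Nat.le_pow_clog (by norm_num) _) _
  have key := DT.proto hdt (d * Nat.clog 2 (2 * s)) hw (fun (x : G) i => q i x)
    (fun (y : G) i => q i y) (fun i a b => a + b)
  have e : (fun x y : G => f (x + y)) = fun x y : G => g (fun i => q i x + q i y) := by
    funext x y
    rw [hf (x + y)]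
    congr 1
    funext i
    exact map_add (q i) x y
  rw [e]
  exact key

/-- Matrices with a group of automorphisms. -/
theorem orbit_version {G : Type} [AddCommGroup G] [Fintype G] (d : ℕ) (gens : Fin d → G)
    (hgens : ∀ x : G, ∃ a : Fin d → ℤ, x = ∑ i, a i • gens i)
    {X Y : Type} [Fintype X] [Fintype Y] [AddAction G X] [AddAction G Y] (F : X → Y → Bool)
    (hF : ∀ (g : G) (x : X) (y : Y), F (g +ᵥ x) (g +ᵥ y) = F x y) (t : ℕ)
    (hX : Nat.card (AddAction.orbitRel.Quotient G X) ≤ t)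
    (hY : Nat.card (AddAction.orbitRel.Quotient G Y) ≤ t) :
    Proto F (ccost d (comm F).rank + Nat.clog 2 t + Nat.clog 2 t) := by
  classical
  have : Fintype (AddAction.orbitRel.Quotient G X) := Fintype.ofFinite _
  have : Fintype (AddAction.orbitRel.Quotient G Y) := Fintype.ofFinite _
  have hX' : ∀ x : X, ∃ g : G, x = g +ᵥ (Quotient.mk'' x : AddAction.orbitRel.Quotient G X).out := by
    intro x
    have h := (AddAction.orbitRel G X).symm (Quotient.mk_out (s := AddAction.orbitRel G X) x)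
    obtain ⟨g, hg⟩ := (AddAction.orbitRel_apply.1 h)
    exact ⟨g, hg.symm⟩
  have hY' : ∀ y : Y, ∃ g : G, y = g +ᵥ (Quotient.mk'' y : AddAction.orbitRel.Quotient G Y).out := by
    intro x
    have h := (AddAction.orbitRel G Y).symm (Quotient.mk_out (s := AddAction.orbitRel G Y) x)
    obtain ⟨g, hg⟩ := (AddAction.orbitRel_apply.1 h)
    exact ⟨g, hg.symm⟩
  choose γ hγ using hX'
  choose δ hδ using hY'
  refine Proto.sendX F (fun x => (Quotient.mk'' x : AddAction.orbitRel.Quotient G X)) (Nat.clog 2 t)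
    ?_ (fun q x y => F (γ x +ᵥ q.out) y) _ (fun q => ?_) (fun x y => by rw [← hγ x])
  · rw [← Nat.card_eq_fintype_card]
    exact hX.trans (Nat.le_pow_clog (by norm_num) _)
  refine Proto.sendY _ (fun y => (Quotient.mk'' y : AddAction.orbitRel.Quotient G Y)) (Nat.clog 2 t)
    ?_ (fun q' x y => F (γ x +ᵥ q.out) (δ y +ᵥ q'.out)) _ (fun q' => ?_)
    (fun x y => by rw [← hδ y])
  · rw [← Nat.card_eq_fintype_card]
    exact hY.trans (Nat.le_pow_clog (by norm_num) _)
  have e1 : ∀ z w : G, F q.out ((z + w) +ᵥ q'.out) = F (-z +ᵥ q.out) (w +ᵥ q'.out) := by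
    intro z w
    rw [← hF z (-z +ᵥ q.out) (w +ᵥ q'.out), vadd_vadd, vadd_vadd, add_neg_cancel, zero_vadd]
  have key := core (fun z => F q.out (z +ᵥ q'.out)) d gens hgens (comm F).rank (by
    have : comm (fun x y : G => (fun z => F q.out (z +ᵥ q'.out)) (x + y)) =
        (comm F).submatrix (fun z : G => -z +ᵥ q.out) (fun w : G => w +ᵥ q'.out) := by
      ext z w
      simp only [comm, Matrix.of_apply, Matrix.submatrix_apply, e1]
    rw [this]
    exact Matrix.rank_submatrix_le _ _ _)
  have key2 := key.comap (fun x : X => -γ x) (fun y : Y => δ y)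
  have e2 : (fun (x : X) (y : Y) => (fun z w : G => (fun z => F q.out (z +ᵥ q'.out)) (z + w)) (-γ x) (δ y))
      = fun x y => F (γ x +ᵥ q.out) (δ y +ᵥ q'.out) := by
    funext x y
    simp only [e1, neg_neg]
  rw [← e2]
  exact key2

end Pool.Agent.H630R2.LR
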