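import Pool.Agent.H630R2.LR.Core

set_option autoImplicit false

namespace Pool.Agent.H630R2.LR

open Finset

/-- One party knows everything after receiving `x0`. -/
theorem proto_bobKnows {X Y : Type*} (h : Y → Bool) : Proto (fun (_ : X) (y : Y) => h y) 1 :=
  Proto.bob _ h (fun v _ _ => v) 0 (fun v => Proto.const _ v fun _ _ => rfl) (fun _ _ => rfl)

theorem proto_aliceKnows {X Y : Type*} (h : X → Bool) : Proto (fun (x : X) (_ : Y) => h x) 1 :=
  Proto.alice _ h (fun v _ _ => v) 0 (fun v => Proto.const _ v fun _ _ => rfl) (fun _ _ => rfl)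

/-- dependence of the rows of a block of the Hankel matrix -/
theorem hankel_dep (f : ℕ → Bool) (m n r : ℕ)
    (hr : (comm (fun (i : Fin m) (j : Fin n) => f (i + j))).rank ≤ r) (i : ℕ) (hi : i + r + 1 ≤ m) :
    ∃ q : ℕ → ℝ, (∃ l ≤ r, q l ≠ 0) ∧
      ∀ j < n, ∑ l ∈ range (r + 1), q l * (if f (i + j + l) then (1 : ℝ) else 0) = 0 := by
  classical
  set M := comm (fun (i : Fin m) (j : Fin n) => f (i + j)) with hM
  -- the `r+1` rows `i, ..., i+r`
  let row : Fin (r + 1) → (Fin n → ℝ) := fun l => M ⟨i + l, by omega⟩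
  have hnot : ¬ LinearIndependent ℝ row := by
    intro hli
    have h1 := finrank_span_eq_card hli
    have h2 : Submodule.span ℝ (Set.range row) ≤ Submodule.span ℝ (Set.range M.row) := by
      apply Submodule.span_mono
      rintro _ ⟨l, rfl⟩
      exact ⟨⟨i + l, by omega⟩, rfl⟩
    have h3 := Submodule.finrank_mono h2
    rw [← Matrix.rank_eq_finrank_span_row, h1, Fintype.card_fin] at h3
    omega
  rw [Fintype.not_linearIndependent_iff] at hnot
  obtain ⟨g, hg, l0, hl0⟩ := hnot
  refine ⟨fun l => if h : l < r + 1 then g ⟨l, h⟩ else 0,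
    ⟨l0, by omega, by simp only [Fin.is_lt, dite_true, Fin.eta]; exact hl0⟩, fun j hj => ?_⟩
  have := congrFun hg ⟨j, hj⟩
  rw [Finset.sum_apply] at this
  rw [← Fin.sum_univ_eq_sum_range
    (fun l => (if h : l < r + 1 then g ⟨l, h⟩ else 0) * (if f (i + j + l) then (1 : ℝ) else 0))]
  rw [Pi.zero_apply] at this
  rw [← this]
  refine Finset.sum_congr rfl fun l _ => ?_
  simp only [Fin.is_lt, dite_true, Fin.eta, Pi.smul_apply, smul_eq_mul, row, hM, comm,
    Matrix.of_apply]
  congr 3
  rw [show i + j + (l : ℕ) = i + l + j by ring]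

/-- Boolean Hankel matrices. -/
theorem hankel_core (f : ℕ → Bool) (m n r : ℕ)
    (hr : (comm (fun (i : Fin m) (j : Fin n) => f (i + j))).rank ≤ r) :
    Proto (fun (i : Fin m) (j : Fin n) => f (i + j))
      (ccost 1 r + 1 + Nat.clog 2 ((r + 1) ^ 2) + Nat.clog 2 ((r + 1) ^ 2)) := by
  classical
  by_cases hm : m ≤ (r + 1) ^ 2
  · refine Proto.mono (c := 1 + Nat.clog 2 ((r + 1) ^ 2))
      (Proto.sendX _ (id : Fin m → Fin m) (Nat.clog 2 ((r + 1) ^ 2)) ?_
      (fun (q : Fin m) (_ : Fin m) (y : Fin n) => f (q + y)) 1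
      (fun q => proto_bobKnows (fun y : Fin n => f (q + y))) (fun x y => rfl)) (by omega)
    rw [Fintype.card_fin]
    exact hm.trans (Nat.le_pow_clog (by norm_num) _)
  by_cases hn : n ≤ (r + 1) ^ 2
  · refine Proto.mono (c := 1 + Nat.clog 2 ((r + 1) ^ 2))
      (Proto.sendY _ (id : Fin n → Fin n) (Nat.clog 2 ((r + 1) ^ 2)) ?_
      (fun (q : Fin n) (x : Fin m) (_ : Fin n) => f (x + q)) 1
      (fun q => proto_aliceKnows (fun x : Fin m => f (x + q))) (fun x y => rfl)) (by omega)
    rw [Fintype.card_fin]
    exact hn.trans (Nat.le_pow_clog (by norm_num) _)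
  rw [not_le] at hm hn
  have hsq : (r + 1) ^ 2 = r ^ 2 + 2 * r + 1 := by ring
  obtain ⟨F, hrec, haF⟩ := rec_ext (fun t => if f t then (1 : ℝ) else 0) r m n (by nlinarith)
    (by nlinarith) (fun i hi => hankel_dep f m n r hr i hi)
  have h01 : ∀ t, F t = 0 ∨ F t = 1 := by
    refine hrec.bool (T := m + n - 1 - r) (by omega) (fun t ht => ?_)
    rw [← haF t (by omega)]
    by_cases h : f t <;> simp [h]
  obtain ⟨N, hN, hper⟩ := hrec.periodic h01
  have : NeZero N := ⟨by omega⟩
  have hper2 : ∀ k t, r ≤ t → F (t + N * k) = F t := by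
    intro k
    induction k with
    | zero => intro t _; simp
    | succ k ih =>
      intro t ht
      rw [show t + N * (k + 1) = (t + N * k) + N by ring, hper _ (by omega), ih t ht]
  have hcong : ∀ t t' : ℕ, r ≤ t → r ≤ t' → t ≡ t' [MOD N] → F t = F t' := by
    have aux : ∀ t t' : ℕ, r ≤ t → t ≤ t' → t ≡ t' [MOD N] → F t = F t' := by
      intro t t' ht htt h
      obtain ⟨k, hk⟩ := (Nat.modEq_iff_dvd' htt).1 h
      rw [show t' = t + N * k by omega, hper2 k t ht]
    intro t t' ht ht' h
    rcases le_total t t' with h1 | h1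
    · exact aux t t' ht h1 h
    · exact (aux t' t ht' h1 h.symm).symm
  set G : ZMod N → Bool := fun z => decide (F (z.val + N * r) = 1) with hGdef
  have hG : ∀ t : ℕ, r ≤ t → F t = if G t then 1 else 0 := by
    intro t ht
    have h1 : F t = F ((t : ZMod N).val + N * r) := by
      refine hcong _ _ ht ?_ ?_
      · have : r ≤ N * r := Nat.le_mul_of_pos_left r hN
        omega
      · rw [ZMod.val_natCast]
        unfold Nat.ModEq
        simp
    rw [h1]
    rcases h01 ((t : ZMod N).val + N * r) with h | h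
    · rw [hGdef]; simp only [h]; norm_num
    · rw [hGdef]; simp only [h]; norm_num
  have hfG : ∀ t : ℕ, r ≤ t → t + 1 + r < m + n → f t = G t := by
    intro t h1 h2
    have h3 := haF t h2
    rw [hG t h1] at h3
    by_cases h4 : f t <;> by_cases h5 : G t <;> simp_all
  have hcoreG := core G 1 (fun _ => 1) (fun x => ⟨fun _ => (x.val : ℤ), by simp⟩) r
    (hrec.rank_le G hG)
  -- the protocol
  have hcardQ : Fintype.card (Option (Bool × Fin r)) ≤ 2 ^ Nat.clog 2 ((r + 1) ^ 2) := by
    rw [Fintype.card_option, Fintype.card_prod, Fintype.card_bool, Fintype.card_fin]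
    refine le_trans ?_ (Nat.le_pow_clog (by norm_num) _)
    nlinarith
  let sx : Fin m → Option (Bool × Fin r) := fun x =>
    if h : (x : ℕ) < r then some (true, ⟨x, h⟩)
    else if h : m - 1 - (x : ℕ) < r then some (false, ⟨m - 1 - x, h⟩) else none
  let dx : Bool × Fin r → ℕ := fun p => if p.1 then p.2 else m - 1 - p.2
  have hsx : ∀ (x : Fin m) (p), sx x = some p → (x : ℕ) = dx p := by
    intro x p h
    simp only [sx] at h
    split_ifs at h with h1 h2
    · cases h; simp [dx]
    · cases h
      simp only [dx, Bool.false_eq_true, if_false]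
      omega
  have hsx0 : ∀ (x : Fin m), sx x = none → r ≤ (x : ℕ) ∧ r ≤ m - 1 - x := by
    intro x h
    simp only [sx] at h
    split_ifs at h with h1 h2
    exact ⟨by omega, by omega⟩
  let sy : Fin n → Option (Bool × Fin r) := fun x =>
    if h : (x : ℕ) < r then some (true, ⟨x, h⟩)
    else if h : n - 1 - (x : ℕ) < r then some (false, ⟨n - 1 - x, h⟩) else none
  let dy : Bool × Fin r → ℕ := fun p => if p.1 then p.2 else n - 1 - p.2
  have hsy : ∀ (x : Fin n) (p), sy x = some p → (x : ℕ) = dy p := by
    intro x p h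
    simp only [sy] at h
    split_ifs at h with h1 h2
    · cases h; simp [dy]
    · cases h
      simp only [dy, Bool.false_eq_true, if_false]
      omega
  have hsy0 : ∀ (x : Fin n), sy x = none → r ≤ (x : ℕ) ∧ r ≤ n - 1 - x := by
    intro x h
    simp only [sy] at h
    split_ifs at h with h1 h2
    exact ⟨by omega, by omega⟩
  refine Proto.sendX _ sx _ hcardQ
    (fun q (x : Fin m) (y : Fin n) => match q with
      | some p => f (dx p + y)
      | none => match sy y with
        | some p' => f (x + dy p')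
        | none => G (((x : ℕ) : ZMod N) + ((y : ℕ) : ZMod N))) _ (fun q => ?_) (fun x y => ?_)
  · cases q with
    | some p => exact (proto_bobKnows (fun y : Fin n => f (dx p + y))).mono (by omega)
    | none =>
      refine Proto.sendY _ sy _ hcardQ
        (fun q' (x : Fin m) (y : Fin n) => match q' with
          | some p' => f (x + dy p')
          | none => G (((x : ℕ) : ZMod N) + ((y : ℕ) : ZMod N))) _ (fun q' => ?_)
        (fun x y => rfl)
      cases q' with
      | some p' => exact (proto_aliceKnows (fun x : Fin m => f (x + dy p'))).mono (by omega)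
      | none =>
        exact (hcoreG.comap (fun x : Fin m => ((x : ℕ) : ZMod N))
          (fun y : Fin n => ((y : ℕ) : ZMod N))).mono (by omega)
  · cases hq : sx x with
    | some p => simp only [hsx x p hq]
    | none =>
      cases hq' : sy y with
      | some p' => simp only [hsy y p' hq']
      | none =>
        simp only
        have h1 := hsx0 x hq
        have h2 := hsy0 y hq'
        rw [hfG (x + y) (by omega) (by omega)]
        push_cast
        rfl

end Pool.Agent.H630R2.LR
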