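import Pool.Agent.H630R2.LR.Defs

set_option autoImplicit false

namespace Pool.Agent.H630R2.LR

open Finset

theorem Proto.const {X Y : Type*} (F : X → Y → Bool) (v : Bool) (h : ∀ x y, F x y = v) :
    Proto F 0 :=
  ⟨fun _ => true, fun _ _ => true, fun _ _ => true, fun _ => v, fun x y => by simp [h]⟩

/-- The first bit `v` of the transcript selects the protocol for the rest. -/
theorem iter_cons {X Y : Type*} (owner : Bool → List Bool → Bool) (a : Bool → List Bool → X → Bool)
    (b : Bool → List Bool → Y → Bool) (o0 : Bool) (a0 : X → Bool) (b0 : Y → Bool)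
    (v : Bool) (x : X) (y : Y) (n : ℕ) (t : List Bool) :
    Nat.iterate (fun t : List Bool => t ++
      [if (fun t : List Bool => match t with | [] => o0 | v :: t' => owner v t') t
        then (fun (t : List Bool) (x : X) => match t with | [] => a0 x | v :: t' => a v t' x) t x
        else (fun (t : List Bool) (y : Y) => match t with | [] => b0 y | v :: t' => b v t' y) t y])
        n (v :: t)
      = v :: Nat.iterate (fun t : List Bool => t ++ [if owner v t then a v t x else b v t y]) n t := by
  induction n generalizing t with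
  | zero => rfl
  | succ n ih =>
    rw [Function.iterate_succ_apply, Function.iterate_succ_apply, ← ih]
    rfl

theorem Proto.alice {X Y : Type*} (F : X → Y → Bool) (α : X → Bool) (Fv : Bool → X → Y → Bool)
    (c : ℕ) (h : ∀ v, Proto (Fv v) c) (hF : ∀ x y, F x y = Fv (α x) x y) : Proto F (c + 1) := by
  choose owner a b out hout using h
  refine ⟨fun t => match t with | [] => true | v :: t' => owner v t',
    fun t x => match t with | [] => α x | v :: t' => a v t' x,
    fun t y => match t with | [] => false | v :: t' => b v t' y,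
    fun t => match t with | [] => false | v :: t' => out v t', fun x y => ?_⟩
  rw [Function.iterate_succ_apply, hF, ← hout]
  have := iter_cons owner a b true α (fun _ => false) (α x) x y c []
  simp only [List.nil_append, if_true] at this ⊢
  rw [this]

theorem Proto.bob {X Y : Type*} (F : X → Y → Bool) (β : Y → Bool) (Fv : Bool → X → Y → Bool)
    (c : ℕ) (h : ∀ v, Proto (Fv v) c) (hF : ∀ x y, F x y = Fv (β y) x y) : Proto F (c + 1) := by
  choose owner a b out hout using h
  refine ⟨fun t => match t with | [] => false | v :: t' => owner v t',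
    fun t x => match t with | [] => false | v :: t' => a v t' x,
    fun t y => match t with | [] => β y | v :: t' => b v t' y,
    fun t => match t with | [] => false | v :: t' => out v t', fun x y => ?_⟩
  rw [Function.iterate_succ_apply, hF, ← hout]
  have := iter_cons owner a b false (fun _ => false) β (β y) x y c []
  simp only [List.nil_append, Bool.false_eq_true, if_false] at this ⊢
  rw [this]

theorem Proto.mono {X Y : Type*} {F : X → Y → Bool} {c c' : ℕ} (h : Proto F c) (hc : c ≤ c') :
    Proto F c' := by
  induction c', hc using Nat.le_induction with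
  | base => exact h
  | succ n _ ih => exact Proto.alice F (fun _ => true) (fun _ => F) n (fun _ => ih) (fun _ _ => rfl)

theorem Proto.comap {X Y X' Y' : Type*} {F : X → Y → Bool} {c : ℕ} (h : Proto F c)
    (g : X' → X) (k : Y' → Y) : Proto (fun x y => F (g x) (k y)) c := by
  obtain ⟨owner, a, b, out, hout⟩ := h
  exact ⟨owner, fun t x => a t (g x), fun t y => b t (k y), out, fun x y => hout (g x) (k y)⟩

theorem Proto.swap {X Y : Type*} {F : X → Y → Bool} {c : ℕ} (h : Proto F c) :
    Proto (fun y x => F x y) c := by
  obtain ⟨owner, a, b, out, hout⟩ := h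
  refine ⟨fun t => !owner t, b, a, out, fun y x => ?_⟩
  show _ = F x y
  rw [← hout x y]
  congr 2
  funext t
  cases h : owner t <;> simp [h]

theorem Proto.bitsX {X Y : Type*} (w : ℕ) : ∀ (F : X → Y → Bool) (e : X → Fin w → Bool)
    (Fe : (Fin w → Bool) → X → Y → Bool) (c : ℕ) (_ : ∀ s, Proto (Fe s) c)
    (_ : ∀ x y, F x y = Fe (e x) x y), Proto F (c + w) := by
  induction w with
  | zero =>
    intro F e Fe c h hF
    have : F = Fe (fun i => i.elim0) := by
      funext x y
      rw [hF, Subsingleton.elim (e x)]
    rw [this]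
    exact h _
  | succ w ih =>
    intro F e Fe c h hF
    refine Proto.alice F (fun x => e x 0)
      (fun v x y => Fe (Fin.cons v (Fin.tail (e x))) x y) (c + w) (fun v => ?_) (fun x y => ?_)
    · exact ih _ (fun x => Fin.tail (e x)) (fun s => Fe (Fin.cons v s)) c (fun s => h _)
        (fun x y => rfl)
    · simp only [hF, Fin.cons_self_tail]

theorem Proto.sendX {X Y Q : Type*} [Fintype Q] (F : X → Y → Bool) (g : X → Q) (w : ℕ)
    (hw : Fintype.card Q ≤ 2 ^ w) (Fq : Q → X → Y → Bool)
    (c : ℕ) (h : ∀ q, Proto (Fq q) c) (hF : ∀ x y, F x y = Fq (g x) x y) : Proto F (c + w) := by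
  classical
  have hcard : Fintype.card Q ≤ Fintype.card (Fin w → Bool) := by simpa using hw
  obtain ⟨ι⟩ := Function.Embedding.nonempty_of_card_le hcard
  refine Proto.bitsX w F (fun x => ι (g x))
    (fun s => if hs : ∃ q, ι q = s then Fq hs.choose else fun _ _ => false) c (fun s => ?_)
    (fun x y => ?_)
  · by_cases hs : ∃ q, ι q = s
    · simp only [hs, dite_true]; exact h _
    · simp only [hs, dite_false]; exact (Proto.const _ false fun _ _ => rfl).mono (Nat.zero_le _)
  · have hs : ∃ q, ι q = ι (g x) := ⟨g x, rfl⟩
    simp only [hs, dite_true]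
    rw [hF, ι.injective hs.choose_spec]

theorem Proto.sendY {X Y Q : Type*} [Fintype Q] (F : X → Y → Bool) (g : Y → Q) (w : ℕ)
    (hw : Fintype.card Q ≤ 2 ^ w) (Fq : Q → X → Y → Bool)
    (c : ℕ) (h : ∀ q, Proto (Fq q) c) (hF : ∀ x y, F x y = Fq (g y) x y) : Proto F (c + w) := by
  have := Proto.sendX (fun y x => F x y) g w hw (fun q y x => Fq q x y) c
    (fun q => (h q).swap) (fun y x => hF x y)
  exact this.swap

theorem DT.proto {I : Type*} [DecidableEq I] {Ω : I → Type*} [∀ i, Fintype (Ω i)]
    {g : (∀ i, Ω i) → Bool} {n : ℕ} (h : DT g n) (w : ℕ) (hw : ∀ i, Fintype.card (Ω i) ≤ 2 ^ w)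
    {X Y : Type*} (α : X → ∀ i, Ω i) (β : Y → ∀ i, Ω i) (op : ∀ i, Ω i → Ω i → Ω i) :
    Proto (fun x y => g (fun i => op i (α x i) (β y i))) (2 * w * n) := by
  induction h with
  | const v n => exact (Proto.const _ v fun _ _ => rfl).mono (Nat.zero_le _)
  | query g n i h ih =>
    have e : 2 * w * (n + 1) = (2 * w * n + w) + w := by ring
    rw [e]
    refine Proto.sendX _ (fun x => α x i) w (hw i)
      (fun p x y => g (Function.update (fun j => op j (α x j) (β y j)) i (op i p (β y i)))) _
      (fun p => ?_) (fun x y => ?_)
    · refine Proto.sendY _ (fun y => β y i) w (hw i)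
        (fun p' x y => g (Function.update (fun j => op j (α x j) (β y j)) i (op i p p'))) _
        (fun p' => ih (op i p p')) (fun x y => rfl)
    · congr 1
      exact (Function.update_eq_self i (fun j => op j (α x j) (β y j))).symm

end Pool.Agent.H630R2.LR
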