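import Pool.Agent.H630R2.LR.Defs

/-! # Block sensitivity bound from Markov's inequality (task M2 of helper630) -/

set_option autoImplicit false

namespace Pool.Agent.H630R2.LR.MARKOV

open Finset Polynomial

section
variable {b : ℕ} {J : Type*} [DecidableEq J] (B : Fin b → Finset J)

/-- the blocks touched by `S` -/
def touched (S : Finset J) : Finset (Fin b) :=
  S.biUnion (fun s => univ.filter (fun j => s ∈ B j))

lemma mem_touched {S : Finset J} {j : Fin b} : j ∈ touched B S ↔ ∃ s ∈ S, s ∈ B j := by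
  simp [touched]

variable {B}

lemma card_touched_le (hB : Pairwise fun i j => Disjoint (B i) (B j)) (S : Finset J) :
    (touched B S).card ≤ S.card := by
  unfold touched
  calc (S.biUnion (fun s => univ.filter (fun j => s ∈ B j))).card
      ≤ ∑ s ∈ S, (univ.filter (fun j => s ∈ B j)).card := card_biUnion_le
    _ ≤ ∑ _s ∈ S, 1 := by
        refine sum_le_sum (fun s _ => ?_)
        rw [card_le_one]
        intro i hi j hj
        by_contra hne
        simp only [mem_filter, mem_univ, true_and] at hi hj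
        exact (Finset.disjoint_left.mp (hB hne) hi hj)
    _ = S.card := by simp

lemma touched_subset_iff (hB : Pairwise fun i j => Disjoint (B i) (B j)) {S : Finset J}
    (hS : S ⊆ univ.biUnion B) (Y : Finset (Fin b)) : touched B S ⊆ Y ↔ S ⊆ Y.biUnion B := by
  constructor
  · intro h s hs
    have h1 := hS hs
    rw [mem_biUnion] at h1 ⊢
    obtain ⟨j, -, hj⟩ := h1
    exact ⟨j, h ((mem_touched B).mpr ⟨s, hs, hj⟩), hj⟩
  · intro h j hj
    obtain ⟨s, hs, hsj⟩ := (mem_touched B).mp hj
    have h1 := h hs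
    rw [mem_biUnion] at h1
    obtain ⟨i, hi, hsi⟩ := h1
    by_cases hij : i = j
    · rwa [← hij]
    · exact absurd hsj (Finset.disjoint_left.mp (hB hij) hsi)

end

lemma sum_weights {b : ℕ} (T : Finset (Fin b)) (θ : ℝ) :
    ∑ Y ∈ univ.filter (fun Y : Finset (Fin b) => T ⊆ Y), θ ^ Y.card * (1 - θ) ^ (b - Y.card) =
      θ ^ T.card := by
  have h := Finset.prod_add (fun _ : Fin b => θ) (fun j => if j ∈ T then 0 else 1 - θ)
    (univ : Finset (Fin b))
  have h1 : ∏ j : Fin b, (θ + if j ∈ T then 0 else 1 - θ) = θ ^ T.card := by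
    have : ∀ j : Fin b, (θ + if j ∈ T then 0 else 1 - θ) = if j ∈ T then θ else 1 := by
      intro j
      split_ifs <;> ring
    rw [Finset.prod_congr rfl (fun j _ => this j), Finset.prod_ite_mem, univ_inter, prod_const]
  rw [h1] at h
  rw [h, Finset.sum_filter, Finset.powerset_univ]
  refine Finset.sum_congr rfl (fun Y _ => ?_)
  rw [prod_const]
  split_ifs with hT
  · congr 1
    rw [Finset.prod_congr rfl (fun j hj => ?_), prod_const, card_sdiff_of_subset (subset_univ Y),
      card_univ, Fintype.card_fin]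
    rw [if_neg]
    intro hjT
    exact (mem_sdiff.mp hj).2 (hT hjT)
  · symm
    rw [Finset.not_subset] at hT
    obtain ⟨j, hj, hjY⟩ := hT
    rw [Finset.prod_eq_zero (i := j)]
    · ring
    · simp [hjY]
    · rw [if_pos hj]

lemma abs_deriv_le {k : ℕ} {P : ℝ[X]} (hdeg : P.degree ≤ k)
    (hb : ∀ x ∈ Set.Icc (-1 : ℝ) 1, |P.eval x| ≤ 1) : (derivative P).eval 1 ≤ (k : ℝ) ^ 2 := by
  have h := Polynomial.Chebyshev.eval_iterate_derivative_le_of_forall_abs_le_one (n := k) (k := 1)
    (le_refl (1 : ℝ)) hdeg hb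
  simp only [Function.iterate_one] at h
  refine h.trans (le_of_eq ?_)
  rw [Polynomial.Chebyshev.T_derivative_eq_U]
  simp
  ring

theorem block_bound {b k : ℕ} {J : Type*} [DecidableEq J] (c : Finset J → ℝ) (B : Fin b → Finset J)
    (hB : Pairwise fun i j => Disjoint (B i) (B j))
    (hc : ∀ S, k < S.card → c S = 0)
    (h01 : ∀ Y : Finset (Fin b), ∑ S ∈ (Y.biUnion B).powerset, c S = 0 ∨
      ∑ S ∈ (Y.biUnion B).powerset, c S = 1)
    (hsens : ∀ j, ∑ S ∈ (B j).powerset, c S ≠ c ∅) : b ≤ k ^ 2 := by
  classical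
  set G : Finset (Fin b) → ℝ := fun Y => ∑ S ∈ (Y.biUnion B).powerset, c S with hG
  set A : Finset J := univ.biUnion B with hA
  set Q : ℝ[X] := ∑ Y : Finset (Fin b), C (G Y) * (X ^ Y.card * (1 - X) ^ (b - Y.card)) with hQ
  set H : ℝ[X] := ∑ S ∈ A.powerset, C (c S) * X ^ (touched B S).card with hH
  have hQeval : ∀ θ : ℝ, Q.eval θ = ∑ Y : Finset (Fin b), G Y * (θ ^ Y.card * (1 - θ) ^ (b - Y.card)) := by
    intro θ
    rw [hQ, eval_finsetSum]
    refine Finset.sum_congr rfl (fun Y _ => ?_)
    simp
  have hHQ : H = Q := by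
    apply Polynomial.funext
    intro θ
    rw [hQeval, hH, eval_finsetSum]
    have e1 : ∀ S ∈ A.powerset, (C (c S) * X ^ (touched B S).card : ℝ[X]).eval θ =
        ∑ Y : Finset (Fin b), if touched B S ⊆ Y then
          c S * (θ ^ Y.card * (1 - θ) ^ (b - Y.card)) else 0 := by
      intro S _
      rw [← Finset.sum_filter, ← Finset.mul_sum, sum_weights]
      simp
    rw [Finset.sum_congr rfl e1, Finset.sum_comm]
    refine Finset.sum_congr rfl (fun Y _ => ?_)
    rw [← Finset.sum_filter, ← Finset.sum_mul, hG]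
    congr 1
    apply Finset.sum_congr _ (fun _ _ => rfl)
    ext S
    rw [mem_filter, mem_powerset, mem_powerset]
    constructor
    · rintro ⟨h1, h2⟩
      exact (touched_subset_iff hB h1 Y).mp h2
    · intro h
      have h1 : S ⊆ A := h.trans (biUnion_subset_biUnion_of_subset_left _ (subset_univ Y))
      exact ⟨h1, (touched_subset_iff hB h1 Y).mpr h⟩
  have hdegQ : Q.degree ≤ k := by
    rw [← hHQ, hH]
    refine (Polynomial.degree_sum_le _ _).trans ?_
    refine Finset.sup_le (fun S _ => ?_)
    by_cases hS : k < S.card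
    · rw [hc S hS]
      simp
    · refine (degree_C_mul_X_pow_le _ _).trans ?_
      have := (card_touched_le hB S).trans (not_lt.mp hS)
      exact_mod_cast this
  have hw1 : ∀ θ : ℝ, ∑ Y : Finset (Fin b), θ ^ Y.card * (1 - θ) ^ (b - Y.card) = 1 := by
    intro θ
    have := sum_weights (∅ : Finset (Fin b)) θ
    simpa using this
  have hQ0 : ∀ θ : ℝ, 0 ≤ θ → θ ≤ 1 → 0 ≤ Q.eval θ ∧ Q.eval θ ≤ 1 := by
    intro θ h0 h1
    have hw : ∀ Y : Finset (Fin b), 0 ≤ θ ^ Y.card * (1 - θ) ^ (b - Y.card) := by
      intro Y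
      have : 0 ≤ 1 - θ := by linarith
      positivity
    have hG01 : ∀ Y, 0 ≤ G Y ∧ G Y ≤ 1 := by
      intro Y
      rcases h01 Y with h | h
      · constructor <;> (show _ ≤ _; simp only [hG]; rw [h]); norm_num
      · constructor <;> (show _ ≤ _; simp only [hG]; rw [h]); norm_num
    rw [hQeval]
    constructor
    · exact Finset.sum_nonneg (fun Y _ => mul_nonneg (hG01 Y).1 (hw Y))
    · calc ∑ Y : Finset (Fin b), G Y * (θ ^ Y.card * (1 - θ) ^ (b - Y.card))
          ≤ ∑ Y : Finset (Fin b), θ ^ Y.card * (1 - θ) ^ (b - Y.card) := by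
            refine Finset.sum_le_sum (fun Y _ => ?_)
            have := mul_le_mul_of_nonneg_right (hG01 Y).2 (hw Y)
            linarith
        _ = 1 := hw1 θ
  -- the derivative at zero
  have hder : (derivative Q).eval 0 = ∑ Y : Finset (Fin b),
      G Y * ((Y.card : ℝ) * 0 ^ (Y.card - 1) - 0 ^ Y.card * ((b - Y.card : ℕ) : ℝ)) := by
    rw [hQ, derivative_sum, eval_finsetSum]
    refine Finset.sum_congr rfl (fun Y _ => ?_)
    rw [derivative_C_mul, derivative_mul, derivative_X_pow, derivative_pow]
    simp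
    ring_nf
    simp
  have hval : ∀ Y : Finset (Fin b), ((Y.card : ℝ) * 0 ^ (Y.card - 1) -
      0 ^ Y.card * ((b - Y.card : ℕ) : ℝ)) =
      (if Y = ∅ then -(b : ℝ) else 0) + (if Y.card = 1 then 1 else 0) := by
    intro Y
    rcases Nat.lt_trichotomy Y.card 1 with h | h | h
    · have h0 : Y.card = 0 := by omega
      have hY : Y = ∅ := card_eq_zero.mp h0
      rw [h0, if_pos hY]
      simp
    · have hY : Y ≠ ∅ := by
        intro h1
        rw [h1] at h
        simp at h
      rw [if_neg hY, if_pos h, h]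
      simp
    · have hY : Y ≠ ∅ := by
        intro h1
        rw [h1] at h
        simp at h
      rw [if_neg hY, if_neg (by omega), zero_pow (by omega), zero_pow (by omega)]
      simp
  have hder2 : (derivative Q).eval 0 = -(b : ℝ) * G ∅ + ∑ j : Fin b, G {j} := by
    rw [hder]
    simp_rw [hval, mul_add, Finset.sum_add_distrib]
    congr 1
    · rw [Finset.sum_eq_single ∅]
      · simp
        ring
      · intro Y _ hY
        rw [if_neg hY, mul_zero]
      · intro h
        exact absurd (mem_univ _) h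
    · simp_rw [mul_ite, mul_one, mul_zero]
      rw [← Finset.sum_filter]
      symm
      apply Finset.sum_bij (fun j _ => ({j} : Finset (Fin b)))
      · intro j _
        simp
      · intro i _ j _ h
        exact Finset.singleton_injective h
      · intro Y hY
        rw [mem_filter] at hY
        obtain ⟨j, hj⟩ := Finset.card_eq_one.mp hY.2
        exact ⟨j, mem_univ _, hj.symm⟩
      · intro j _
        rfl
  have hGe : G ∅ = c ∅ := by
    simp [hG]
  have hGj : ∀ j, G {j} ≠ G ∅ := by
    intro j
    rw [hGe]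
    have : G {j} = ∑ S ∈ (B j).powerset, c S := by
      simp [hG]
    rw [this]
    exact hsens j
  have hG01 : ∀ Y, G Y = 0 ∨ G Y = 1 := h01
  -- sign
  have hmain : ∀ ε : ℝ, (ε = 1 ∨ ε = -1) → ε * (derivative Q).eval 0 = b → (b : ℝ) ≤ (k : ℝ) ^ 2 := by
    intro ε hε h
    set P : ℝ[X] := C ε * (1 - C 2 * Q.comp (C (1 / 2) - C (1 / 2) * X)) with hP
    have hPdeg : P.degree ≤ k := by
      have h1 : Q.natDegree ≤ k := natDegree_le_iff_degree_le.mpr hdegQ
      have h2 : (Q.comp (C (1 / 2) - C (1 / 2) * X)).natDegree ≤ k := by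
        refine natDegree_comp_le.trans ?_
        have h3 : (C (1 / 2 : ℝ) - C (1 / 2) * X : ℝ[X]).natDegree ≤ 1 := by
          refine (natDegree_sub_le _ _).trans ?_
          simp only [natDegree_C, max_le_iff, zero_le, true_and]
          exact (natDegree_C_mul_le _ _).trans natDegree_X_le
        calc Q.natDegree * (C (1 / 2 : ℝ) - C (1 / 2) * X : ℝ[X]).natDegree ≤ k * 1 :=
              Nat.mul_le_mul h1 h3
          _ = k := mul_one k
      rw [← natDegree_le_iff_degree_le, hP]
      refine (natDegree_C_mul_le _ _).trans ?_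
      refine (natDegree_sub_le _ _).trans ?_
      rw [max_le_iff]
      refine ⟨by simp, (natDegree_C_mul_le _ _).trans h2⟩
    have hPeval : ∀ x, P.eval x = ε * (1 - 2 * Q.eval (1 / 2 - 1 / 2 * x)) := by
      intro x
      rw [hP]
      simp [eval_comp]
    have hPb : ∀ x ∈ Set.Icc (-1 : ℝ) 1, |P.eval x| ≤ 1 := by
      rintro x ⟨hx1, hx2⟩
      obtain ⟨q1, q2⟩ := hQ0 (1 / 2 - 1 / 2 * x) (by linarith) (by linarith)
      rw [hPeval, abs_mul]
      have : |ε| = 1 := by
        rcases hε with h | h <;> rw [h] <;> norm_num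
      rw [this, one_mul, abs_le]
      constructor <;> linarith
    have hd := abs_deriv_le hPdeg hPb
    have hd2 : (derivative P).eval 1 = ε * (derivative Q).eval 0 := by
      rw [hP, derivative_C_mul, derivative_sub, derivative_C_mul, derivative_comp]
      simp [eval_comp]
    rw [hd2, h] at hd
    exact hd
  have hfin : (b : ℝ) ≤ (k : ℝ) ^ 2 := by
    rcases hG01 ∅ with h0 | h1
    · have h2 : ∀ j, G {j} = 1 := by
        intro j
        rcases hG01 {j} with h | h
        · exact absurd (h.trans h0.symm) (hGj j)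
        · exact h
      apply hmain 1 (Or.inl rfl)
      rw [hder2, h0]
      simp [h2]
    · have h2 : ∀ j, G {j} = 0 := by
        intro j
        rcases hG01 {j} with h | h
        · exact h
        · exact absurd (h.trans h1.symm) (hGj j)
      apply hmain (-1) (Or.inr rfl)
      rw [hder2, h1]
      simp [h2]
  exact_mod_cast hfin

end Pool.Agent.H630R2.LR.MARKOV
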