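import Pool.Agent.H630R2.LR.Defs

/-!
Task M4 (Galois invariance of the Fourier support) for helper630's log-rank project.
-/

set_option autoImplicit false

namespace Pool.Agent.H81R2.LR

open Finset Pool.Agent.H630R2.LR

/-- Galois step: if `ψ` has order dividing `m` and the Fourier coefficient at `ψ` vanishes, so does the
one at `ψ ^ u` for `u` coprime to `m`. -/
theorem fc_pow_eq_zero {G : Type*} [AddCommGroup G] [Fintype G] (f : G → Bool) (ψ : AddChar G ℂ)
    {m u : ℕ} (hm : 0 < m) (hψ : ψ ^ m = 1) (hu : Nat.Coprime u m) (h : fc f ψ = 0) :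
    fc f (ψ ^ u) = 0 := by
  classical
  have hζ : IsPrimitiveRoot (Complex.exp (2 * Real.pi * Complex.I / m)) m :=
    Complex.isPrimitiveRoot_exp m hm.ne'
  obtain ⟨ζ, hζdef⟩ : ∃ ζ : ℂ, ζ = Complex.exp (2 * Real.pi * Complex.I / m) := ⟨_, rfl⟩
  rw [← hζdef] at hζ
  have hroot : ∀ x, ∃ a : ℕ, ζ ^ a = ψ x := by
    intro x
    have h1 : ψ x ^ m = 1 := by
      rw [← AddChar.pow_apply, hψ, AddChar.one_apply]
    have : NeZero m := ⟨hm.ne'⟩
    obtain ⟨i, -, hi⟩ := hζ.eq_pow_of_pow_eq_one h1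
    exact ⟨i, hi⟩
  choose a ha using hroot
  obtain ⟨P, hP⟩ : ∃ P : Polynomial ℤ,
      P = ∑ x, (if f x then 1 else 0) * Polynomial.X ^ (a x) := ⟨_, rfl⟩
  have haeval : ∀ z : ℂ, Polynomial.aeval z P = ∑ x, (if f x then 1 else 0) * z ^ (a x) := by
    intro z
    rw [hP, map_sum]
    refine Finset.sum_congr rfl fun x _ => ?_
    rw [map_mul, map_pow, Polynomial.aeval_X]
    by_cases hfx : f x <;> simp [hfx]
  have h0 : Polynomial.aeval ζ P = 0 := by
    rw [haeval]
    refine Eq.trans ?_ h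
    unfold fc
    refine Finset.sum_congr rfl fun x _ => ?_
    rw [ha]
  have hint : IsIntegral ℤ ζ := hζ.isIntegral hm
  have hdvd : minpoly ℤ ζ ∣ P := minpoly.isIntegrallyClosed_dvd hint h0
  rw [hζ.minpoly_eq_pow_coprime hu] at hdvd
  have h1 : Polynomial.aeval (ζ ^ u) P = 0 := by
    obtain ⟨R, hR⟩ := hdvd
    rw [hR, map_mul, minpoly.aeval, zero_mul]
  rw [haeval] at h1
  refine Eq.trans ?_ h1
  unfold fc
  refine Finset.sum_congr rfl fun x _ => ?_
  rw [AddChar.pow_apply, ← ha x, ← pow_mul, ← pow_mul, mul_comm (a x) u]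

theorem fc_pow_ne_zero {G : Type*} [AddCommGroup G] [Fintype G] (f : G → Bool) (χ : AddChar G ℂ)
    {u : ℕ} (hu : Nat.Coprime u (orderOf χ)) (h : fc f χ ≠ 0) : fc f (χ ^ u) ≠ 0 := by
  intro h0
  apply h
  have hm : 0 < orderOf χ := orderOf_pos χ
  rcases Nat.lt_or_ge 1 (orderOf χ) with h1 | h1
  · obtain ⟨u', hu'⟩ := Nat.exists_mul_mod_eq_one_of_coprime hu h1
    have hu'2 := hu'.2
    have hcop : Nat.Coprime u' (orderOf χ) := by
      rw [Nat.coprime_iff_gcd_eq_one]
      have hd : Nat.gcd u' (orderOf χ) ∣ u * u' % orderOf χ :=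
        (Nat.dvd_mod_iff (Nat.gcd_dvd_right _ _)).mpr ((Nat.gcd_dvd_left _ _).mul_left u)
      rw [hu'2] at hd
      exact Nat.dvd_one.mp hd
    have h2 : (χ ^ u) ^ u' = χ := by
      rw [← pow_mul, ← pow_mod_orderOf, hu'2, pow_one]
    have h3 : (χ ^ u) ^ orderOf χ = 1 := by
      rw [← pow_mul, mul_comm, pow_mul, pow_orderOf_eq_one, one_pow]
    have h4 := fc_pow_eq_zero f (χ ^ u) hm h3 hcop h0
    rwa [h2] at h4
  · have h2 : orderOf χ = 1 := by omega
    have h3 : χ = 1 := orderOf_eq_one_iff.mp h2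
    rw [h3, one_pow] at h0
    rw [h3]
    exact h0

theorem totient_le {G : Type*} [AddCommGroup G] [Fintype G] (f : G → Bool) (χ : AddChar G ℂ)
    (h : fc f χ ≠ 0) : (orderOf χ).totient ≤ (spec f).card := by
  classical
  unfold Nat.totient
  refine Finset.card_le_card_of_injOn (fun u => χ ^ u) ?_ ?_
  · intro u hu
    have hu' := (Finset.mem_filter.mp hu).2
    show χ ^ u ∈ spec f
    unfold spec
    rw [Finset.mem_filter]
    exact ⟨Finset.mem_univ _, fc_pow_ne_zero f χ hu'.symm h⟩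
  · intro u hu v hv huv
    have hu' := Finset.mem_range.mp (Finset.mem_filter.mp hu).1
    have hv' := Finset.mem_range.mp (Finset.mem_filter.mp hv).1
    exact pow_injOn_Iio_orderOf (Set.mem_Iio.mpr hu') (Set.mem_Iio.mpr hv') huv

theorem card_primeFactors_le (m s : ℕ) (hm : 0 < m) (h : m.totient ≤ s) :
    m.primeFactors.card ≤ Nat.log 2 s + 1 := by
  have h1 : 2 ^ (m.primeFactors.card - 1) ≤ m.totient := by
    rw [Nat.totient_eq_prod_factorization hm.ne', Finsupp.prod, Nat.support_factorization]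
    calc 2 ^ (m.primeFactors.card - 1) ≤ 2 ^ (m.primeFactors.erase 2).card :=
          Nat.pow_le_pow_right (by norm_num) (Finset.pred_card_le_card_erase)
      _ = ∏ _p ∈ m.primeFactors.erase 2, 2 := by rw [Finset.prod_const]
      _ ≤ ∏ p ∈ m.primeFactors.erase 2, (p ^ (m.factorization p - 1) * (p - 1)) := by
          apply Finset.prod_le_prod' 
          intro p hp
          rw [Finset.mem_erase] at hp
          have hpp : p.Prime := Nat.prime_of_mem_primeFactors hp.2
          have h2 : 2 < p := lt_of_le_of_ne hpp.two_le (Ne.symm hp.1)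
          have h3 : 0 < p ^ (m.factorization p - 1) := pow_pos hpp.pos _
          have h4 : 2 ≤ p - 1 := by omega
          calc 2 = 1 * 2 := by norm_num
            _ ≤ _ := Nat.mul_le_mul h3 h4
      _ ≤ ∏ p ∈ m.primeFactors, (p ^ (m.factorization p - 1) * (p - 1)) := by
          apply Finset.prod_le_prod_of_subset_of_one_le' (Finset.erase_subset _ _)
          intro p hp _
          have hpp : p.Prime := Nat.prime_of_mem_primeFactors hp
          have h3 : 0 < p ^ (m.factorization p - 1) := pow_pos hpp.pos _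
          have h4 : 0 < p - 1 := by have := hpp.two_le; omega
          exact Nat.mul_pos h3 h4
  have hs : 0 < s := lt_of_lt_of_le (Nat.totient_pos.mpr hm) h
  have h2 : m.primeFactors.card - 1 ≤ Nat.log 2 s :=
    Nat.le_log_of_pow_le (by norm_num) (h1.trans h)
  omega

theorem primePow_le (m s p : ℕ) (hm : 0 < m) (h : m.totient ≤ s) (hp : p.Prime) :
    p ^ m.factorization p ≤ 2 * s := by
  have hs : 0 < s := lt_of_lt_of_le (Nat.totient_pos.mpr hm) h
  rcases Nat.eq_zero_or_pos (m.factorization p) with h0 | h0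
  · rw [h0, pow_zero]; omega
  · have h1 : (p ^ m.factorization p).totient ≤ m.totient :=
      Nat.le_of_dvd (Nat.totient_pos.mpr hm) (Nat.totient_dvd_of_dvd (Nat.ordProj_dvd m p))
    rw [Nat.totient_prime_pow hp h0] at h1
    obtain ⟨e, he⟩ : ∃ e, m.factorization p = e + 1 := ⟨m.factorization p - 1, by omega⟩
    rw [he] at h1 ⊢
    simp only [Nat.add_sub_cancel] at h1
    have h2 := hp.two_le
    have h3 : p ≤ 2 * (p - 1) := by omega
    calc p ^ (e + 1) = p ^ e * p := pow_succ _ _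
      _ ≤ p ^ e * (2 * (p - 1)) := Nat.mul_le_mul_left _ h3
      _ = 2 * (p ^ e * (p - 1)) := by ring
      _ ≤ 2 * s := Nat.mul_le_mul_left _ (h1.trans h)

end Pool.Agent.H81R2.LR
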