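import Pool.Agent.H630R2.LR.Defs

set_option autoImplicit false

namespace Pool.Agent.H630R2.LR.RANK

open Finset Pool.Agent.H630R2.LR

/-- The complexification of a real matrix does not have larger rank. -/
theorem rank_map_le {G : Type} [Fintype G] (M : Matrix G G ℝ) :
    (M.map (fun r : ℝ => (r : ℂ))).rank ≤ M.rank := by
  classical
  rw [Matrix.rank_eq_finrank_span_cols M, Matrix.rank_eq_finrank_span_cols (M.map _)]
  set V := Submodule.span ℝ (Set.range M.col) with hV
  set b := Module.finBasis ℝ V with hb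
  let w : Fin (Module.finrank ℝ V) → G → ℂ := fun i x => (((b i : V) : G → ℝ) x : ℂ)
  have h1 : Submodule.span ℂ (Set.range (M.map (fun r : ℝ => (r : ℂ))).col) ≤
      Submodule.span ℂ (Set.range w) := by
    rw [Submodule.span_le]
    rintro _ ⟨j, rfl⟩
    have hj : M.col j ∈ V := Submodule.subset_span ⟨j, rfl⟩
    have h2 := b.sum_repr ⟨M.col j, hj⟩
    have h3 : (M.map (fun r : ℝ => (r : ℂ))).col j =
        ∑ i, ((b.repr ⟨M.col j, hj⟩ i : ℝ) : ℂ) • w i := by
      funext x
      have h4 := congrArg (fun v : V => ((v : G → ℝ) x)) h2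
      simp only [Submodule.coe_sum, Submodule.coe_smul, Finset.sum_apply, Pi.smul_apply,
        smul_eq_mul] at h4
      simp only [Matrix.col_apply, Matrix.map_apply, Finset.sum_apply, Pi.smul_apply, smul_eq_mul, w]
      rw [Matrix.col_apply] at h4
      rw [← h4]
      push_cast
      rfl
    rw [SetLike.mem_coe, h3]
    exact Submodule.sum_mem _ fun i _ => Submodule.smul_mem _ _ (Submodule.subset_span ⟨i, rfl⟩)
  calc _ ≤ Module.finrank ℂ (Submodule.span ℂ (Set.range w)) := Submodule.finrank_mono h1
    _ ≤ Fintype.card (Fin (Module.finrank ℝ V)) := finrank_range_le_card w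
    _ = _ := Fintype.card_fin _

theorem card_spec_le_rank {G : Type} [AddCommGroup G] [Fintype G] (f : G → Bool) :
    (spec f).card ≤ (comm (fun x y : G => f (x + y))).rank := by
  classical
  set M := comm (fun x y : G => f (x + y)) with hM
  refine le_trans ?_ (rank_map_le M)
  set MC := M.map (fun r : ℝ => (r : ℂ)) with hMC
  have key : ∀ χ : AddChar G ℂ, MC.mulVecLin (χ : G → ℂ) = fc f χ • (fun x => (χ⁻¹ : AddChar G ℂ) x) := by
    intro χ
    funext x
    simp only [Matrix.mulVecLin_apply, Matrix.mulVec, dotProduct, Pi.smul_apply, smul_eq_mul, fc]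
    rw [Finset.sum_mul]
    apply Fintype.sum_equiv (Equiv.addLeft x)
    intro y
    have h1 : MC x y = if f (x + y) then 1 else 0 := by
      simp only [hMC, Matrix.map_apply, hM, comm, Matrix.of_apply]
      split_ifs <;> simp
    rw [h1, Equiv.coe_addLeft, AddChar.inv_apply, mul_assoc]
    congr 1
    rw [← AddChar.map_add_eq_mul]
    exact congrArg _ (by show y = x + y + -x; rw [add_comm x y, add_neg_cancel_right])
  let v : spec f → G → ℂ := fun χ => ((χ : AddChar G ℂ)⁻¹ : AddChar G ℂ)
  have hli : LinearIndependent ℂ v := by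
    have h := AddChar.linearIndependent G ℂ
    exact h.comp (fun χ : spec f => ((χ : AddChar G ℂ)⁻¹)) (fun a b hab => Subtype.ext (inv_injective hab))
  have hmem : ∀ χ : spec f, v χ ∈ LinearMap.range MC.mulVecLin := by
    intro χ
    have hne : fc f (χ : AddChar G ℂ) ≠ 0 := (Finset.mem_filter.1 χ.2).2
    refine ⟨(fc f (χ : AddChar G ℂ))⁻¹ • ((χ : AddChar G ℂ) : G → ℂ), ?_⟩
    rw [map_smul, key, smul_smul, inv_mul_cancel₀ hne, one_smul]
  have hspan : Submodule.span ℂ (Set.range v) ≤ LinearMap.range MC.mulVecLin := by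
    rw [Submodule.span_le]
    rintro _ ⟨χ, rfl⟩
    exact hmem χ
  calc (spec f).card = Fintype.card (spec f) := by simp
    _ = Module.finrank ℂ (Submodule.span ℂ (Set.range v)) := (finrank_span_eq_card hli).symm
    _ ≤ Module.finrank ℂ (LinearMap.range MC.mulVecLin) := Submodule.finrank_mono hspan
    _ = MC.rank := rfl

end Pool.Agent.H630R2.LR.RANK
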