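import Pool.Agent.H630R2.LR.M1
import Pool.Agent.H630R2.LR.M2
import Pool.Agent.H630R2.LR.M4
import Pool.Agent.H630R2.LR.M5
import Pool.Agent.H630R2.LR.RANK
import Pool.Agent.H431R2.Hankel
import Pool.Agent.H663R2.LR.DTree

/-! The modules of the team, collected. M2: helper289, M3: helper663, M4: helper81, M6: helper477,
M8, M9: helper431. -/

set_option autoImplicit false

namespace Pool.Agent.H630R2.LR

open Finset

theorem dt_of_vanish {I : Type*} [Fintype I] [DecidableEq I] {Ω : I → Type*}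
    (g : (∀ i, Ω i) → Bool) (k : ℕ) (h : Vanish g k) :
    DT g (∑ j ∈ range (k + 1), j ^ 3) :=
  DTREE.dt_of_vanish_aux (fun c B h1 h2 h3 h4 => MARKOV.block_bound c B h1 h2 h3 h4) g k h

theorem totient_le {G : Type*} [AddCommGroup G] [Fintype G] (f : G → Bool) (χ : AddChar G ℂ)
    (h : fc f χ ≠ 0) : (orderOf χ).totient ≤ (spec f).card := Pool.Agent.H81R2.LR.totient_le f χ h

theorem card_primeFactors_le (m s : ℕ) (hm : 0 < m) (h : m.totient ≤ s) :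
    m.primeFactors.card ≤ Nat.log 2 s + 1 := Pool.Agent.H81R2.LR.card_primeFactors_le m s hm h

theorem primePow_le (m s p : ℕ) (hm : 0 < m) (h : m.totient ≤ s) (hp : p.Prime) :
    p ^ m.factorization p ≤ 2 * s := Pool.Agent.H81R2.LR.primePow_le m s p hm h hp

theorem card_spec_le_rank {G : Type} [AddCommGroup G] [Fintype G] (f : G → Bool) :
    (spec f).card ≤ (comm (fun x y : G => f (x + y))).rank := RANK.card_spec_le_rank f

theorem rec_ext (a : ℕ → ℝ) (r m n : ℕ) (hm : r + 1 ≤ m) (hn : 2 * r + 1 ≤ n)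
    (hdep : ∀ i, i + r + 1 ≤ m → ∃ q : ℕ → ℝ, (∃ l ≤ r, q l ≠ 0) ∧
      ∀ j < n, ∑ l ∈ range (r + 1), q l * a (i + j + l) = 0) :
    ∃ F : ℕ → ℝ, Rec F r ∧ ∀ t, t + 1 + r < m + n → a t = F t :=
  Pool.Agent.H431R2.Hankel.rec_ext a r m n hm hn hdep

theorem Rec.bool {F : ℕ → ℝ} {r T : ℕ} (h : Rec F r) (hT : r ^ 2 + r ≤ T)
    (h01 : ∀ t < T, F t = 0 ∨ F t = 1) : ∀ t, F t = 0 ∨ F t = 1 :=
  Pool.Agent.H431R2.Hankel.Rec.bool h hT h01

theorem Rec.periodic {F : ℕ → ℝ} {r : ℕ} (h : Rec F r) (h01 : ∀ t, F t = 0 ∨ F t = 1) :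
    ∃ N, 0 < N ∧ ∀ t, r ≤ t → F (t + N) = F t :=
  Pool.Agent.H431R2.Hankel.Rec.periodic h h01

theorem Rec.rank_le {F : ℕ → ℝ} {r N : ℕ} [NeZero N] (h : Rec F r) (G : ZMod N → Bool)
    (hG : ∀ t, r ≤ t → F t = if G t then 1 else 0) :
    (comm (fun x y : ZMod N => G (x + y))).rank ≤ r :=
  Pool.Agent.H431R2.Hankel.Rec.rank_le h G hG

end Pool.Agent.H630R2.LR
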