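import Pool.Agent.H630R2.LR.Defs

set_option autoImplicit false

namespace Pool.Agent.H630R2.LR

open Finset

/-! ### M1 PROTO -/

theorem Proto.const {X Y : Type*} (F : X → Y → Bool) (v : Bool) (h : ∀ x y, F x y = v) :
    Proto F 0 := by sorry

theorem Proto.alice {X Y : Type*} (F : X → Y → Bool) (α : X → Bool) (Fv : Bool → X → Y → Bool)
    (c : ℕ) (h : ∀ v, Proto (Fv v) c) (hF : ∀ x y, F x y = Fv (α x) x y) : Proto F (c + 1) := by sorry

theorem Proto.bob {X Y : Type*} (F : X → Y → Bool) (β : Y → Bool) (Fv : Bool → X → Y → Bool)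
    (c : ℕ) (h : ∀ v, Proto (Fv v) c) (hF : ∀ x y, F x y = Fv (β y) x y) : Proto F (c + 1) := by sorry

theorem Proto.mono {X Y : Type*} {F : X → Y → Bool} {c c' : ℕ} (h : Proto F c) (hc : c ≤ c') :
    Proto F c' := by sorry

theorem Proto.comap {X Y X' Y' : Type*} {F : X → Y → Bool} {c : ℕ} (h : Proto F c)
    (g : X' → X) (k : Y' → Y) : Proto (fun x y => F (g x) (k y)) c := by sorry

theorem Proto.sendX {X Y Q : Type*} [Fintype Q] (F : X → Y → Bool) (g : X → Q) (w : ℕ)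
    (hw : Fintype.card Q ≤ 2 ^ w) (Fq : Q → X → Y → Bool)
    (c : ℕ) (h : ∀ q, Proto (Fq q) c) (hF : ∀ x y, F x y = Fq (g x) x y) : Proto F (c + w) := by sorry

theorem Proto.sendY {X Y Q : Type*} [Fintype Q] (F : X → Y → Bool) (g : Y → Q) (w : ℕ)
    (hw : Fintype.card Q ≤ 2 ^ w) (Fq : Q → X → Y → Bool)
    (c : ℕ) (h : ∀ q, Proto (Fq q) c) (hF : ∀ x y, F x y = Fq (g y) x y) : Proto F (c + w) := by sorry

theorem DT.proto {I : Type*} [DecidableEq I] {Ω : I → Type*} [∀ i, Fintype (Ω i)]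
    {g : (∀ i, Ω i) → Bool} {n : ℕ} (h : DT g n) (w : ℕ) (hw : ∀ i, Fintype.card (Ω i) ≤ 2 ^ w)
    {X Y : Type*} (α : X → ∀ i, Ω i) (β : Y → ∀ i, Ω i) (op : ∀ i, Ω i → Ω i → Ω i) :
    Proto (fun x y => g (fun i => op i (α x i) (β y i))) (2 * w * n) := by sorry

/-! ### M2 MARKOV -/

theorem block_bound {b k : ℕ} {J : Type*} [DecidableEq J] (c : Finset J → ℝ) (B : Fin b → Finset J)
    (hB : Pairwise fun i j => Disjoint (B i) (B j))
    (hc : ∀ S, k < S.card → c S = 0)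
    (h01 : ∀ Y : Finset (Fin b), ∑ S ∈ (Y.biUnion B).powerset, c S = 0 ∨
      ∑ S ∈ (Y.biUnion B).powerset, c S = 1)
    (hsens : ∀ j, ∑ S ∈ (B j).powerset, c S ≠ c ∅) : b ≤ k ^ 2 := by sorry

/-! ### M3 DTREE (uses M2) -/

theorem dt_of_vanish {I : Type*} [Fintype I] [DecidableEq I] {Ω : I → Type*}
    (g : (∀ i, Ω i) → Bool) (k : ℕ) (h : Vanish g k) :
    DT g (∑ j ∈ range (k + 1), j ^ 3) := by sorry

/-! ### M4 GALOIS -/

theorem totient_le {G : Type*} [AddCommGroup G] [Fintype G] (f : G → Bool) (χ : AddChar G ℂ)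
    (h : fc f χ ≠ 0) : (orderOf χ).totient ≤ (spec f).card := by sorry

theorem card_primeFactors_le (m s : ℕ) (hm : 0 < m) (h : m.totient ≤ s) :
    m.primeFactors.card ≤ Nat.log 2 s + 1 := by sorry

theorem primePow_le (m s p : ℕ) (hm : 0 < m) (h : m.totient ≤ s) (hp : p.Prime) :
    p ^ m.factorization p ≤ 2 * s := by sorry

/-! ### M5 CRT -/

theorem crt_model {G : Type} [AddCommGroup G] [Fintype G] (f : G → Bool) (d : ℕ) (gens : Fin d → G)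
    (hgens : ∀ x : G, ∃ a : Fin d → ℤ, x = ∑ i, a i • gens i) (s k : ℕ)
    (hord : ∀ χ ∈ spec f, (orderOf χ).primeFactors.card ≤ k)
    (hpp : ∀ χ ∈ spec f, ∀ p : ℕ, p.Prime → p ^ (orderOf χ).factorization p ≤ s) :
    ∃ (I : Type) (_ : Fintype I) (_ : DecidableEq I) (Ω : I → Type) (_ : ∀ i, AddCommGroup (Ω i))
      (_ : ∀ i, Fintype (Ω i)) (q : ∀ i, G →+ Ω i) (g : (∀ i, Ω i) → Bool),
      (∀ i, Fintype.card (Ω i) ≤ s ^ d) ∧ Vanish g k ∧ ∀ x, f x = g (fun i => q i x) := by sorry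

/-! ### M6 RANK -/

theorem card_spec_le_rank {G : Type} [AddCommGroup G] [Fintype G] (f : G → Bool) :
    (spec f).card ≤ (comm (fun x y : G => f (x + y))).rank := by sorry

/-! ### M8 HANKEL1 -/

theorem rec_ext (a : ℕ → ℝ) (r m n : ℕ) (hm : r + 1 ≤ m) (hn : 2 * r + 1 ≤ n)
    (hdep : ∀ i, i + r + 1 ≤ m → ∃ q : ℕ → ℝ, (∃ l ≤ r, q l ≠ 0) ∧
      ∀ j < n, ∑ l ∈ range (r + 1), q l * a (i + j + l) = 0) :
    ∃ F : ℕ → ℝ, Rec F r ∧ ∀ t, t + 1 + r < m + n → a t = F t := by sorry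

/-! ### M9 HANKEL2 -/

theorem Rec.bool {F : ℕ → ℝ} {r T : ℕ} (h : Rec F r) (hT : r ^ 2 + r ≤ T)
    (h01 : ∀ t < T, F t = 0 ∨ F t = 1) : ∀ t, F t = 0 ∨ F t = 1 := by sorry

theorem Rec.periodic {F : ℕ → ℝ} {r : ℕ} (h : Rec F r) (h01 : ∀ t, F t = 0 ∨ F t = 1) :
    ∃ N, 0 < N ∧ ∀ t, r ≤ t → F (t + N) = F t := by sorry

theorem Rec.rank_le {F : ℕ → ℝ} {r N : ℕ} [NeZero N] (h : Rec F r) (G : ZMod N → Bool)
    (hG : ∀ t, r ≤ t → F t = if G t then 1 else 0) :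
    (comm (fun x y : ZMod N => G (x + y))).rank ≤ r := by sorry

/-! ### M7 CORE (uses M1, M3, M4, M5, M6) -/

theorem core {G : Type} [AddCommGroup G] [Fintype G] (f : G → Bool) (d : ℕ) (gens : Fin d → G)
    (hgens : ∀ x : G, ∃ a : Fin d → ℤ, x = ∑ i, a i • gens i) (s : ℕ)
    (hs : (comm (fun x y : G => f (x + y))).rank ≤ s) :
    Proto (fun x y : G => f (x + y))
      (2 * (d * Nat.clog 2 (2 * s)) * ∑ j ∈ range (Nat.log 2 s + 2), j ^ 3) := by sorry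

end Pool.Agent.H630R2.LR
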